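import Mathlib
import Pool.Agent.K4H76.Leh.Poly
import Pool.Agent.TH53.SL5

/-!
# Lehmer's problem for polynomials whose complex conjugation has few conjugates

There is an absolute constant `c > 0` such that the following holds. Let `f` be an irreducible
integer polynomial of degree `n` with `M(f) > 1`, and suppose that the complex conjugation has at
most `m` conjugates in the Galois group of `f` over `ℚ`. Then

* `M(f) ≥ min (2, exp (c n / (m ^ 2 (log 2m) ^ 2)))`;
* `M(f) > M(L)`, where `L` is Lehmer's polynomial, if `m ^ 2 (log 2m) ^ 2 ≤ c n`.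

So Lehmer's inequality holds for all `f` of degree `n` for which the complex conjugation has at most
`c' √n / log (2 n)` conjugates in the Galois group, for instance if the centre of the Galois group
has at most this index. For `m = 1` (the splitting field is totally real or a CM field) this is,
up to the constant, Schinzel's theorem.

The condition on the Galois group can be replaced by the following weaker one (`ConjPairs`): for a
zero `α` of `f` in a number field `K` and some `α'` in `K` the number `τ α'` is the complex conjugate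
of `τ α` for at least `[K : ℚ] / m` of the embeddings `τ` of `K` in the complex numbers, and for one of
these `|τ α| ≠ 1`. For `α' = α` this is a condition on the number of real zeros.

Method: the number `β = α α'` has at least `deg β / m` conjugates `|τ α| ^ 2` on the positive real
axis; by the energy method this gives a lower bound for the height of `β` (if `deg β` is large; by
Dobrowolski's theorem otherwise), and the height of `β` is at most twice that of `α`.
-/

set_option autoImplicit false

open Polynomial Module

namespace Pool.Agent.Results.MP_dc0c68_nt.ConjugationClass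

/-- The Mahler measure of an integer polynomial. -/
noncomputable def M (f : ℤ[X]) : ℝ := (f.map (Int.castRingHom ℂ)).mahlerMeasure

/-- Lehmer's polynomial. -/
noncomputable def L : ℤ[X] := X ^ 10 + X ^ 9 - X ^ 7 - X ^ 6 - X ^ 5 - X ^ 4 - X ^ 3 + X + 1

attribute [local instance] Polynomial.Gal.splits_ℚ_ℂ

/-- The complex conjugation in the Galois group of `f` over `ℚ`: the restriction of the complex
conjugation of `ℂ` to the splitting field of `f`. -/
noncomputable def complexConj (f : ℤ[X]) : (f.map (Int.castRingHom ℚ)).Gal :=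
  Polynomial.Gal.restrict _ ℂ (Complex.conjAe.restrictScalars ℚ)

/-- There are a number field `K` and `α`, `α'` in `K` such that `α` is a zero of `f` and
`τ α'` is the complex conjugate of `τ α` for some embedding `τ` of `K` with `|τ α| ≠ 1` and for at
least `[K : ℚ] / m` embeddings `τ` of `K` in the complex numbers. -/
def ConjPairs (f : ℤ[X]) (m : ℕ) : Prop :=
  ∃ (K : Type) (_ : Field K) (_ : NumberField K) (α α' : K), aeval α f = 0 ∧
    (∃ τ : K →ₐ[ℚ] ℂ, τ α' = starRingEnd ℂ (τ α) ∧ ‖τ α‖ ≠ 1) ∧
    finrank ℚ K ≤ m * Nat.card {τ : K →ₐ[ℚ] ℂ // τ α' = starRingEnd ℂ (τ α)}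

lemma M_neg (f : ℤ[X]) : M (-f) = M f := by
  unfold M
  have h : -f = C (-1) * f := by simp
  rw [h, Polynomial.map_mul, mahlerMeasure_mul, Polynomial.map_C, mahlerMeasure_const]
  simp

/-- **Lehmer's problem for polynomials whose complex conjugation has few conjugates in the Galois
group.** -/
theorem result : ∃ c : ℝ, 0 < c ∧ ∀ f : ℤ[X], Irreducible f → 1 < M f → ∀ m : ℕ,
    (Nat.card {g : (f.map (Int.castRingHom ℚ)).Gal // IsConj (complexConj f) g} ≤ m ∨
      ConjPairs f m) →
    min 2 (Real.exp (c * f.natDegree / ((m : ℝ) ^ 2 * (Real.log (2 * m)) ^ 2))) ≤ M f ∧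
    ((m : ℝ) ^ 2 * (Real.log (2 * m)) ^ 2 ≤ c * f.natDegree → M L < M f) := by
  obtain ⟨c, hc, h⟩ := Pool.Agent.K4H76.Leh.monic_case
  refine ⟨c, hc, ?_⟩
  intro f hf hM m hm
  have hL : M L < (2 : ℝ) ^ ((1 : ℝ) / 4) := Pool.Agent.TH53.SL.lehmer_lt'
  have hf0 : f ≠ 0 := hf.ne_zero
  have hinj : Function.Injective (Int.castRingHom ℂ) := RingHom.injective_int _
  have hmap0 : f.map (Int.castRingHom ℂ) ≠ 0 := (Polynomial.map_ne_zero_iff hinj).mpr hf0
  have h24 : (2 : ℝ) ^ ((1 : ℝ) / 4) ≤ 2 := by
    calc (2 : ℝ) ^ ((1 : ℝ) / 4) ≤ (2 : ℝ) ^ (1 : ℝ) :=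
          Real.rpow_le_rpow_of_exponent_le (by norm_num) (by norm_num)
      _ = 2 := Real.rpow_one 2
  suffices hs : min 2 (Real.exp (c * f.natDegree / ((m : ℝ) ^ 2 * (Real.log (2 * m)) ^ 2))) ≤ M f by
    refine ⟨hs, fun hQ => hL.trans_le ?_⟩
    refine le_trans (le_min h24 ?_) hs
    have hm1 : 1 ≤ m := by
      rcases Nat.eq_zero_or_pos m with h0 | h0
      · exfalso
        subst h0
        rcases hm with h1 | ⟨K, _, _, α, α', -, -, h1⟩
        · have h2 : Nonempty {g : (f.map (Int.castRingHom ℚ)).Gal // IsConj (complexConj f) g} :=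
            ⟨⟨complexConj f, IsConj.refl _⟩⟩
          have h3 := Nat.card_pos (α := {g : (f.map (Int.castRingHom ℚ)).Gal //
            IsConj (complexConj f) g})
          omega
        · rw [zero_mul] at h1
          have : 0 < finrank ℚ K := finrank_pos
          omega
      · exact h0
    have hm1' : (1:ℝ) ≤ m := by exact_mod_cast hm1
    have hlog : 0 < Real.log (2 * m) := Real.log_pos (by linarith)
    have hQ0 : 0 < (m : ℝ) ^ 2 * (Real.log (2 * m)) ^ 2 := by positivity
    have h1 : 1 ≤ c * f.natDegree / ((m : ℝ) ^ 2 * (Real.log (2 * m)) ^ 2) := by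
      rw [le_div_iff₀ hQ0, one_mul]
      exact hQ
    calc (2 : ℝ) ^ ((1 : ℝ) / 4) ≤ 2 := h24
      _ ≤ Real.exp 1 := by
        have := Real.add_one_le_exp (1:ℝ)
        linarith
      _ ≤ _ := Real.exp_le_exp.mpr h1
  -- the main inequality
  have hlead := leadingCoeff_le_mahlerMeasure (f.map (Int.castRingHom ℂ))
  rw [Polynomial.leadingCoeff_map_of_injective hinj, eq_intCast, Complex.norm_intCast] at hlead
  have hl0 : f.leadingCoeff ≠ 0 := leadingCoeff_ne_zero.mpr hf0
  have habs := Int.one_le_abs hl0
  rcases lt_or_eq_of_le habs with h1 | h1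
  · have h2 : (2:ℝ) ≤ |(f.leadingCoeff : ℝ)| := by
      have : (2:ℤ) ≤ |f.leadingCoeff| := h1
      exact_mod_cast this
    exact (min_le_left _ _).trans (h2.trans hlead)
  · refine (min_le_right _ _).trans ?_
    have hM0 : 0 < M f := by linarith
    rw [← Real.le_log_iff_exp_le hM0]
    -- a zero outside the unit circle
    obtain ⟨z, hz, hz1⟩ : ∃ z : ℂ, aeval z f = 0 ∧ ‖z‖ ≠ 1 := by
      by_contra hcon
      push Not at hcon
      have h2 : M f = 1 := by
        unfold M
        rw [mahlerMeasure_eq_leadingCoeff_mul_prod_roots,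
          Polynomial.leadingCoeff_map_of_injective hinj, eq_intCast, Complex.norm_intCast]
        have h3 : |(f.leadingCoeff : ℝ)| = 1 := by
          exact_mod_cast h1.symm
        rw [h3, one_mul]
        have h4 : (f.map (Int.castRingHom ℂ)).roots.map (fun a => max 1 ‖a‖) =
            (f.map (Int.castRingHom ℂ)).roots.map (fun _ => (1:ℝ)) := by
          apply Multiset.map_congr rfl
          intro a ha
          rw [Polynomial.mem_roots hmap0, IsRoot.def, Polynomial.eval_map] at ha
          rw [hcon a ha, max_self]
        rw [h4, Multiset.map_const', Multiset.prod_replicate, one_pow]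
      linarith
    have hcp : ConjPairs f m := by
      rcases hm with h2 | h2
      · exact Pool.Agent.K4H76.Leh.conjPairs_of_class hf0 hz hz1 h2
      · exact h2
    rcases (abs_eq (zero_le_one' ℤ)).mp h1.symm with h2 | h2
    · exact h f hf h2 hM m hcp
    · have h3 := h (-f) ((Associated.irreducible_iff (Associated.neg_left (Associated.refl f))).mpr hf)
        (by rw [Monic, leadingCoeff_neg, h2]; rfl) (by rw [← M_neg] at hM; exact hM) m (by
          obtain ⟨K, iK, iN, α, α', hα, hrest⟩ := hcp
          exact ⟨K, iK, iN, α, α', by rw [map_neg, hα, neg_zero], hrest⟩)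
      rw [natDegree_neg] at h3
      have h4 : Pool.Agent.K4H76.Leh.M (-f) = M f := M_neg f
      rw [h4] at h3
      exact h3

end Pool.Agent.Results.MP_dc0c68_nt.ConjugationClass
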