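import Mathlib
import Pool.Agent.K4H76.Leh.Frob2
import Pool.Agent.TH53.SL5

/-!
# Lehmer's problem for polynomials with a Frobenius element that has few conjugates

There is an absolute constant `c > 0` such that the following holds. Let `f` be an irreducible
integer polynomial of degree `n` with `M(f) > 1`, with a zero in the Galois number field `K` (for
instance its splitting field). Let `v` be a place of `K` above the prime number `p` with
ramification index at most `e`, and let `F` be an element of the Galois group of `K` which acts as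
`x ↦ x ^ q` on the residue field of `v` (so `q` is a power of `p`, and `F` is a power of a Frobenius
element). If `F` has at most `m` conjugates in the Galois group, then

* `M(f) ≥ min (2, exp (c n / (q e m ^ 2 (log (2em)) ^ 4)))`;
* `M(f) > M(L)`, where `L` is Lehmer's polynomial, if `q e m ^ 2 (log (2em)) ^ 4 ≤ c n`.

The place may be ramified, `F` need not be central and no assumption is made on the other elements
of the Galois group. For `m = e = 1` and `q = p` this is, up to the constant, the theorem of Amoroso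
and Dvornicich on abelian fields in which `p` is not ramified.

The condition on `F` can be replaced by the following weaker one (`FrobPairs`): for two zeros `α`,
`α'` of `f` in `K` the congruence `σ α' ≡ (σ α) ^ q` holds at `v` for at least `1 / m` of the elements
`σ` of the Galois group.

Method: the unit `β = α ^ q / α'` has at least `deg β / m` conjugates congruent to `1` at `v`, so the
discriminant of `β` is divisible by a high power of `p`; by an energy inequality this gives a lower
bound for the height of `β` (if `deg β` is large; by Dobrowolski's theorem otherwise), and the height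
of `β` is at most `q + 1` times that of `α`.
-/

set_option autoImplicit false

open Polynomial Module NumberField

namespace Pool.Agent.Results.MP_dc0c68_nt.FrobeniusClass

/-- The Mahler measure of an integer polynomial. -/
noncomputable def M (f : ℤ[X]) : ℝ := (f.map (Int.castRingHom ℂ)).mahlerMeasure

/-- Lehmer's polynomial. -/
noncomputable def L : ℤ[X] := X ^ 10 + X ^ 9 - X ^ 7 - X ^ 6 - X ^ 5 - X ^ 4 - X ^ 3 + X + 1

/-- The finite place `v` lies above `p`, with ramification index at most `e`: the integers `x` of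
absolute value `|x| < 1` satisfy `|x| ^ e ≤ |p| < 1`. -/
def AboveRam {K : Type} [Field K] [NumberField K] (v : FinitePlace K) (p e : ℕ) : Prop :=
  v (p : K) < 1 ∧ ∀ x : 𝓞 K, v (x : K) < 1 → v (x : K) ^ e ≤ v (p : K)

/-- The polynomial `f` has a zero in a Galois number field `K`, which has a place `v` above `p` of
ramification index at most `e` and an automorphism `F` with at most `m` conjugates that acts as
`x ↦ x ^ q` on the residue field of `v`. -/
def FrobClass (f : ℤ[X]) (p q e m : ℕ) : Prop :=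
  ∃ (K : Type) (_ : Field K) (_ : NumberField K) (_ : IsGalois ℚ K) (v : FinitePlace K)
    (F : Gal(K/ℚ)), AboveRam v p e ∧ (∀ x : 𝓞 K, v (F (x : K) - (x : K) ^ q) < 1) ∧
    Nat.card {g : Gal(K/ℚ) // IsConj F g} ≤ m ∧ ∃ α : K, aeval α f = 0

/-- The polynomial `f` has zeros `α`, `α'` in a Galois number field `K`, which has a place `v` above
`p` of ramification index at most `e`, such that `σ α'` is congruent to `(σ α) ^ q` at `v` for at
least `1 / m` of the automorphisms `σ` of `K`. -/
def FrobPairs (f : ℤ[X]) (p q e m : ℕ) : Prop :=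
  ∃ (K : Type) (_ : Field K) (_ : NumberField K) (_ : IsGalois ℚ K) (v : FinitePlace K)
    (α α' : K), AboveRam v p e ∧ aeval α f = 0 ∧ aeval α' f = 0 ∧
    Nat.card Gal(K/ℚ) ≤ m * Nat.card {σ : Gal(K/ℚ) // v (σ α' - σ α ^ q) < 1}

lemma M_neg (f : ℤ[X]) : M (-f) = M f := by
  unfold M
  have h : -f = C (-1) * f := by simp
  rw [h, Polynomial.map_mul, mahlerMeasure_mul, Polynomial.map_C, mahlerMeasure_const]
  simp

lemma pairs_neg {f : ℤ[X]} {p q e m : ℕ} (h : FrobPairs f p q e m) : FrobPairs (-f) p q e m := by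
  obtain ⟨K, i1, i2, i3, v, α, α', h1, h2, h3, h4⟩ := h
  exact ⟨K, i1, i2, i3, v, α, α', h1, by rw [map_neg, h2, neg_zero], by rw [map_neg, h3, neg_zero],
    h4⟩

lemma pairs_of_class {f : ℤ[X]} (hf : f.Monic) {p q e m : ℕ} (h : FrobClass f p q e m) :
    FrobPairs f p q e m := by
  classical
  obtain ⟨K, i1, i2, i3, v, F, h1, h2, h3, α, hα⟩ := h
  refine ⟨K, i1, i2, i3, v, α, F α, h1, hα, ?_, ?_⟩
  · have h4 := Polynomial.aeval_algHom_apply ((F : K →ₐ[ℚ] K).restrictScalars ℤ) α f
    rw [hα, map_zero] at h4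
    exact h4
  have hi : IsIntegral ℤ α := ⟨f, hf, by rw [← Polynomial.aeval_def]; exact hα⟩
  have horb : Nat.card (MulAction.orbit (ConjAct Gal(K/ℚ)) F) *
      Nat.card (MulAction.stabilizer (ConjAct Gal(K/ℚ)) F) = Nat.card Gal(K/ℚ) := by
    have h1 := MulAction.card_orbit_mul_card_stabilizer_eq_card_group (ConjAct Gal(K/ℚ)) F
    rw [← Nat.card_eq_fintype_card, ← Nat.card_eq_fintype_card, ← Nat.card_eq_fintype_card] at h1
    exact h1
  have horb2 : Nat.card (MulAction.orbit (ConjAct Gal(K/ℚ)) F) ≤ m := by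
    refine le_trans (le_of_eq ?_) h3
    apply Nat.card_congr
    refine Equiv.subtypeEquivRight fun g => ?_
    rw [ConjAct.mem_orbit_conjAct, isConj_comm]
  have hstab : Nat.card (MulAction.stabilizer (ConjAct Gal(K/ℚ)) F) ≤
      Nat.card {σ : Gal(K/ℚ) // v (σ (F α) - σ α ^ q) < 1} := by
    have hmem : ∀ g : MulAction.stabilizer (ConjAct Gal(K/ℚ)) F,
        v ((ConjAct.ofConjAct g.1 : Gal(K/ℚ)) (F α) -
          (ConjAct.ofConjAct g.1 : Gal(K/ℚ)) α ^ q) < 1 := by
      intro g
      have h1 := g.2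
      rw [MulAction.mem_stabilizer_iff, ConjAct.smul_def, mul_inv_eq_iff_eq_mul] at h1
      have h5 : (ConjAct.ofConjAct g.1 : Gal(K/ℚ)) (F α) =
          F ((ConjAct.ofConjAct g.1 : Gal(K/ℚ)) α) := congrArg (fun s : Gal(K/ℚ) => s α) h1
      rw [h5]
      have h6 : IsIntegral ℤ ((ConjAct.ofConjAct g.1 : Gal(K/ℚ)) α) :=
        hi.map ((ConjAct.ofConjAct g.1 : Gal(K/ℚ)) : K →ₐ[ℚ] K)
      exact h2 ⟨_, h6⟩
    refine Nat.card_le_card_of_injective (fun g => ⟨_, hmem g⟩) ?_
    intro g g' hgg
    have h1 := congrArg Subtype.val hgg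
    apply Subtype.ext
    exact ConjAct.ofConjAct.injective h1
  calc Nat.card Gal(K/ℚ) = Nat.card (MulAction.orbit (ConjAct Gal(K/ℚ)) F) *
      Nat.card (MulAction.stabilizer (ConjAct Gal(K/ℚ)) F) := horb.symm
    _ ≤ m * _ := Nat.mul_le_mul horb2 hstab

/-- inverses of zeros of monic polynomials with constant term `± 1` -/
lemma inv_integral {K : Type} [Field K] [NumberField K] {f : ℤ[X]} (hf : f.Monic)
    (h0 : |f.coeff 0| = 1) {α : K} (hα : aeval α f = 0) : α ≠ 0 ∧ IsIntegral ℤ α⁻¹ := by
  have hi : IsIntegral ℤ α := ⟨f, hf, by rw [← Polynomial.aeval_def]; exact hα⟩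
  have h1 : aeval α f.divX * α + algebraMap ℤ K (f.coeff 0) = 0 := by
    have h2 := congrArg (aeval α) (Polynomial.divX_mul_X_add f)
    rw [map_add, map_mul, Polynomial.aeval_X, Polynomial.aeval_C, hα] at h2
    exact h2
  have h3 : (algebraMap ℤ K (f.coeff 0)) ^ 2 = 1 := by
    rw [← map_pow, ← sq_abs, h0, one_pow, map_one]
  have h4 : α * (-(aeval α f.divX) * algebraMap ℤ K (f.coeff 0)) = 1 := by
    have : aeval α f.divX * α = - algebraMap ℤ K (f.coeff 0) := by linear_combination h1
    calc α * (-(aeval α f.divX) * algebraMap ℤ K (f.coeff 0))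
        = -(aeval α f.divX * α) * algebraMap ℤ K (f.coeff 0) := by ring
      _ = (algebraMap ℤ K (f.coeff 0)) ^ 2 := by rw [this]; ring
      _ = 1 := h3
  refine ⟨left_ne_zero_of_mul_eq_one h4, ?_⟩
  rw [← eq_inv_of_mul_eq_one_right h4]
  exact ((Pool.Agent.H388SL.isIntegral_aevalZ hi _).neg).mul isIntegral_algebraMap

/-- **Lehmer's problem for polynomials with a Frobenius element that has few conjugates.** -/
theorem result : ∃ c : ℝ, 0 < c ∧ ∀ f : ℤ[X], Irreducible f → 1 < M f → ∀ p q e m : ℕ,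
    p.Prime → 2 ≤ q → (FrobClass f p q e m ∨ FrobPairs f p q e m) →
    min 2 (Real.exp (c * f.natDegree / ((q : ℝ) * e * (m : ℝ) ^ 2 *
      (Real.log (2 * (e * m))) ^ 4))) ≤ M f ∧
    ((q : ℝ) * e * (m : ℝ) ^ 2 * (Real.log (2 * (e * m))) ^ 4 ≤ c * f.natDegree → M L < M f) := by
  obtain ⟨c, hc, hcore⟩ := Pool.Agent.K4H76.Leh.coreF
  refine ⟨c / 2, by positivity, ?_⟩
  intro f hf hM p q e m hp hq hm
  have hL : M L < (2 : ℝ) ^ ((1 : ℝ) / 4) := Pool.Agent.TH53.SL.lehmer_lt'
  have hf0 : f ≠ 0 := hf.ne_zero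
  have hinj : Function.Injective (Int.castRingHom ℂ) := RingHom.injective_int _
  have hmap0 : f.map (Int.castRingHom ℂ) ≠ 0 := (Polynomial.map_ne_zero_iff hinj).mpr hf0
  have hlead := leadingCoeff_le_mahlerMeasure (f.map (Int.castRingHom ℂ))
  rw [Polynomial.leadingCoeff_map_of_injective hinj, eq_intCast, Complex.norm_intCast] at hlead
  have hl0 : f.leadingCoeff ≠ 0 := leadingCoeff_ne_zero.mpr hf0
  have habs := Int.one_le_abs hl0
  have h24 : (2 : ℝ) ^ ((1 : ℝ) / 4) ≤ 2 := by
    calc (2 : ℝ) ^ ((1 : ℝ) / 4) ≤ (2 : ℝ) ^ (1 : ℝ) :=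
          Real.rpow_le_rpow_of_exponent_le (by norm_num) (by norm_num)
      _ = 2 := Real.rpow_one 2
  rcases le_or_gt 2 (M f) with hM2 | hM2
  · exact ⟨(min_le_left _ _).trans hM2, fun _ => hL.trans_le (h24.trans hM2)⟩
  -- the leading coefficient and the constant term
  have h1 : |f.leadingCoeff| = 1 := by
    rcases lt_or_eq_of_le habs with h | h
    · have h2 : (2:ℝ) ≤ |(f.leadingCoeff : ℝ)| := by
        have : (2:ℤ) ≤ |f.leadingCoeff| := h
        exact_mod_cast this
      exact absurd (h2.trans hlead) (not_le.mpr hM2)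
    · exact h.symm
  have h0ne : f.coeff 0 ≠ 0 := by
    intro h
    have h2 : (X : ℤ[X]) ∣ f := X_dvd_iff.mpr h
    have h3 : Associated (X : ℤ[X]) f := prime_X.irreducible.associated_of_dvd hf h2
    obtain ⟨u, hu⟩ := h3
    have h4 : M f = 1 := by
      obtain ⟨r, hr, hr2⟩ := Polynomial.isUnit_iff.mp u.isUnit
      have h5 : |r| = 1 := Int.isUnit_iff_abs_eq.mp hr
      unfold M
      rw [← hu, ← hr2, Polynomial.map_mul, mahlerMeasure_mul, Polynomial.map_X, Polynomial.map_C,
        mahlerMeasure_const, eq_intCast, Complex.norm_intCast]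
      have h6 : (X : ℂ[X]).mahlerMeasure = 1 := by
        have h := mahlerMeasure_X_sub_C 0
        simpa using h
      rw [h6, one_mul]
      exact_mod_cast h5
    linarith
  have hc0 : |f.coeff 0| = 1 := by
    have h2 := norm_coeff_le_choose_mul_mahlerMeasure 0 (f.map (Int.castRingHom ℂ))
    rw [Nat.choose_zero_right, Nat.cast_one, one_mul, Polynomial.coeff_map, eq_intCast,
      Complex.norm_intCast] at h2
    have h3 : |(f.coeff 0 : ℝ)| < 2 := lt_of_le_of_lt h2 hM2
    have h4 : |f.coeff 0| < 2 := by exact_mod_cast h3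
    have h5 := Int.one_le_abs h0ne
    omega
  -- the main estimate for monic polynomials
  have key : ∀ g : ℤ[X], Irreducible g → g.Monic → |g.coeff 0| = 1 → 1 < M g →
      FrobPairs g p q e m → 1 ≤ (q : ℝ) * e * (m : ℝ) ^ 2 ∧ 0 < Real.log (2 * ((e:ℝ) * m)) ∧
      c / 2 * g.natDegree / ((q : ℝ) * e * (m : ℝ) ^ 2 * (Real.log (2 * (e * m))) ^ 4) ≤
        Real.log (M g) := by
    rintro g hg hgm hg0 hgM ⟨K, i1, i2, i3, v, α, α', ⟨hv1, hv2⟩, hα, hα', hcard⟩
    have he1 : 1 ≤ e := by
      rcases Nat.eq_zero_or_pos e with h | h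
      · have h2 := hv2 (p : 𝓞 K) (by exact_mod_cast hv1)
        rw [h, pow_zero] at h2
        exact absurd h2 (not_le.mpr hv1)
      · exact h
    have hm1 : 1 ≤ m := by
      rcases Nat.eq_zero_or_pos m with h | h
      · rw [h, zero_mul, IsGalois.card_aut_eq_finrank ℚ K] at hcard
        have : 0 < finrank ℚ K := finrank_pos
        omega
      · exact h
    have hi : IsIntegral ℤ α := ⟨g, hgm, by rw [← Polynomial.aeval_def]; exact hα⟩
    have hi' : IsIntegral ℤ α' := ⟨g, hgm, by rw [← Polynomial.aeval_def]; exact hα'⟩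
    obtain ⟨hα'0, hα'i⟩ := inv_integral hgm hg0 hα'
    have hlam := Pool.Agent.K4H76.Leh.lam_eq hg hgm hα
    have hlam' := Pool.Agent.K4H76.Leh.lam_eq hg hgm hα'
    have hdeg : 0 < g.natDegree := by
      rw [Nat.pos_iff_ne_zero]
      intro h
      have := hgm.natDegree_eq_zero.mp h
      exact hg.not_isUnit (this ▸ isUnit_one)
    have hdeg' : (0:ℝ) < g.natDegree := by exact_mod_cast hdeg
    have heq : Pool.Agent.H388SL.lam α' = Pool.Agent.H388SL.lam α := by
      have h2 : (g.natDegree : ℝ) * Pool.Agent.H388SL.lam α' =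
        g.natDegree * Pool.Agent.H388SL.lam α := by rw [hlam, hlam']
      exact mul_left_cancel₀ hdeg'.ne' h2
    have hN : (0:ℝ) < finrank ℚ K := by exact_mod_cast (finrank_pos : 0 < finrank ℚ K)
    have hlogM : 0 < Real.log (Pool.Agent.K4H76.Leh.M g) := Real.log_pos hgM
    have hpos : 0 < Pool.Agent.H388SL.lam α := by
      have h2 : 0 < (g.natDegree : ℝ) * Pool.Agent.H388SL.lam α := by
        rw [hlam]; positivity
      exact (pos_iff_pos_of_mul_pos h2).mp hdeg'
    have h2 := hcore K v p hp hv1 e q m he1 hq hv2 α α' hi hi' hα'i hα'0 heq hpos hcard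
    have hq' : (2:ℝ) ≤ q := by exact_mod_cast hq
    have he' : (1:ℝ) ≤ e := by exact_mod_cast he1
    have hm' : (1:ℝ) ≤ m := by exact_mod_cast hm1
    have hem : (1:ℝ) ≤ (e:ℝ) * m := by nlinarith
    have hlog : 0 < Real.log (2 * ((e:ℝ) * m)) := Real.log_pos (by linarith)
    refine ⟨?_, hlog, ?_⟩
    · have h3 : 1 ≤ (m:ℝ) ^ 2 := one_le_pow₀ hm'
      have h4 : 1 ≤ (q:ℝ) * e := by nlinarith
      nlinarith
    set Q : ℝ := (e : ℝ) * (m : ℝ) ^ 2 * (Real.log (2 * (e * m))) ^ 4 with hQ
    have hQ0 : 0 < Q := by positivity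
    have h3 : (g.natDegree : ℝ) * (c * finrank ℚ K / Q) ≤
        g.natDegree * ((q + 1) * Pool.Agent.H388SL.lam α) := mul_le_mul_of_nonneg_left h2 hdeg'.le
    have h4 : (g.natDegree : ℝ) * ((q + 1) * Pool.Agent.H388SL.lam α) =
        (q + 1) * (finrank ℚ K * Real.log (M g)) := by
      have h5 : (g.natDegree : ℝ) * Pool.Agent.H388SL.lam α = finrank ℚ K * Real.log (M g) := hlam
      rw [← h5]; ring
    rw [h4] at h3
    have h5 : (q + 1 : ℝ) * (finrank ℚ K * Real.log (M g)) ≤
        (2 * q) * (finrank ℚ K * Real.log (M g)) := by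
      apply mul_le_mul_of_nonneg_right (by linarith)
      have : 0 ≤ Real.log (M g) := hlogM.le
      positivity
    have h6 : (finrank ℚ K : ℝ) * (c / 2 * g.natDegree / (q * Q)) ≤
        finrank ℚ K * Real.log (M g) := by
      have hq0 : (0:ℝ) < q := by linarith
      have e1 : (finrank ℚ K : ℝ) * (c / 2 * g.natDegree / (q * Q)) =
        ((g.natDegree : ℝ) * (c * finrank ℚ K / Q)) / (2 * q) := by
        field_simp
      rw [e1, div_le_iff₀ (by positivity)]
      linarith
    have h7 := le_of_mul_le_mul_left h6 hN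
    have e2 : (q : ℝ) * e * (m : ℝ) ^ 2 * (Real.log (2 * (e * m))) ^ 4 = q * Q := by
      rw [hQ]; ring
    rw [e2]
    exact h7
  have hmain : 1 ≤ (q : ℝ) * e * (m : ℝ) ^ 2 ∧ 0 < Real.log (2 * ((e:ℝ) * m)) ∧
      c / 2 * f.natDegree / ((q : ℝ) * e * (m : ℝ) ^ 2 * (Real.log (2 * (e * m))) ^ 4) ≤
        Real.log (M f) := by
    rcases (abs_eq (zero_le_one' ℤ)).mp h1 with h2 | h2
    · have h3 : FrobPairs f p q e m := by
        rcases hm with h | h
        · exact pairs_of_class h2 h
        · exact h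
      exact key f hf h2 hc0 hM h3
    · have hmon : (-f).Monic := by rw [Monic, leadingCoeff_neg, h2]; rfl
      have h3 : FrobPairs (-f) p q e m := by
        rcases hm with ⟨K, i1, i2, i3, v, F, g1, g2, g3, α, hα⟩ | h
        · exact pairs_of_class hmon ⟨K, i1, i2, i3, v, F, g1, g2, g3, α, by
            rw [map_neg, hα, neg_zero]⟩
        · exact pairs_neg h
      have h4 := key (-f)
        ((Associated.irreducible_iff (Associated.neg_left (Associated.refl f))).mpr hf) hmon
        (by rw [coeff_neg, abs_neg]; exact hc0) (by rw [M_neg]; exact hM) h3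
      rw [natDegree_neg, M_neg] at h4
      exact h4
  obtain ⟨g1, g2, g3⟩ := hmain
  have hM0 : 0 < M f := by linarith
  have hmin : Real.exp (c / 2 * f.natDegree / ((q : ℝ) * e * (m : ℝ) ^ 2 *
      (Real.log (2 * (e * m))) ^ 4)) ≤ M f := (Real.le_log_iff_exp_le hM0).mp g3
  refine ⟨(min_le_right _ _).trans hmin, fun hQ => hL.trans_le (h24.trans (le_trans ?_ hmin))⟩
  have hQ0 : 0 < (q : ℝ) * e * (m : ℝ) ^ 2 * (Real.log (2 * (e * m))) ^ 4 := by
    have : 0 < (q : ℝ) * e * (m : ℝ) ^ 2 := by linarith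
    positivity
  have h2 : 1 ≤ c / 2 * f.natDegree / ((q : ℝ) * e * (m : ℝ) ^ 2 *
      (Real.log (2 * (e * m))) ^ 4) := by
    rw [le_div_iff₀ hQ0, one_mul]
    exact hQ
  calc (2:ℝ) ≤ Real.exp 1 := by
        have := Real.add_one_le_exp (1:ℝ)
        linarith
    _ ≤ _ := Real.exp_le_exp.mpr h2

end Pool.Agent.Results.MP_dc0c68_nt.FrobeniusClass
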