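import Mathlib
import Pool.Agent.K4H76.Leh.Inert
import Pool.Agent.TH53.SL5

/-!
# Lehmer's problem for polynomials with an inertia element that has few conjugates

There is an absolute constant `c > 0` such that the following holds. Let `f` be an irreducible
integer polynomial of degree `n` with `M(f) > 1`, with a zero `α` in the Galois number field `K` (for
instance its splitting field). Let `v` be a place of `K` above the prime number `p`, and let `τ` be
an element of the Galois group of `K` with `|τ x - x| ^ E ≤ |p|` at `v` for all integers `x` of `K`.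
So `τ` is in the inertia group of `v`; if `e` is the ramification index of `v` then the condition
holds with `E = e` for all elements of the inertia group, and with `E ≥ e / (i + 1)` for all elements
of the `i`-th ramification group (in the lower numbering). If `τ` has at most `m` conjugates in the
Galois group and `τ α / α` is not a root of unity, then

* `M(f) ≥ min (2, exp (c n / (E m ^ 2 (log (2Em)) ^ 4)))`;
* `M(f) > M(L)`, where `L` is Lehmer's polynomial, if `E m ^ 2 (log (2Em)) ^ 4 ≤ c n`.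

The condition that `τ α / α` is not a root of unity cannot be dropped without proving a lower bound
for all polynomials, because of the polynomials `g (X ^ N)`.

The condition on `τ` can be replaced by the following weaker one (`ClosePairs`): for two zeros `α`,
`α'` of `f` in `K`, whose quotient is not a root of unity, `|σ α' - σ α| ^ E ≤ |p|` at `v` for at
least `1 / m` of the elements `σ` of the Galois group. Here `v` may also be unramified: then the
condition says that `σ α'` and `σ α` are congruent modulo `v` (for `E = 1`).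

Method: the unit `β = α' / α` has at least `deg β / m` conjugates that are close to `1` at `v`, so the
discriminant of `β` is divisible by a high power of `p`; by an energy inequality this gives a lower
bound for the height of `β` (if `deg β` is large; by Dobrowolski's theorem otherwise), and the height
of `β` is at most twice that of `α`.
-/

set_option autoImplicit false

open Polynomial Module NumberField

namespace Pool.Agent.Results.MP_dc0c68_nt.InertiaClass

/-- The Mahler measure of an integer polynomial. -/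
noncomputable def M (f : ℤ[X]) : ℝ := (f.map (Int.castRingHom ℂ)).mahlerMeasure

/-- Lehmer's polynomial. -/
noncomputable def L : ℤ[X] := X ^ 10 + X ^ 9 - X ^ 7 - X ^ 6 - X ^ 5 - X ^ 4 - X ^ 3 + X + 1

/-- The polynomial `f` has a zero `α` in a Galois number field `K`, which has a place `v` above `p`
and an automorphism `τ` with at most `m` conjugates such that `|τ x - x| ^ E ≤ |p|` at `v` for all
integers `x` of `K`; and `τ α / α` is not a root of unity. -/
def InertiaElement (f : ℤ[X]) (p E m : ℕ) : Prop :=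
  ∃ (K : Type) (_ : Field K) (_ : NumberField K) (_ : IsGalois ℚ K) (v : FinitePlace K)
    (τ : Gal(K/ℚ)), v (p : K) < 1 ∧ (∀ x : 𝓞 K, v (τ (x : K) - x) ^ E ≤ v (p : K)) ∧
    Nat.card {g : Gal(K/ℚ) // IsConj τ g} ≤ m ∧
    ∃ α : K, aeval α f = 0 ∧ ∀ k : ℕ, 0 < k → (τ α) ^ k ≠ α ^ k

/-- The polynomial `f` has zeros `α`, `α'` in a Galois number field `K`, which has a place `v` above
`p`, such that `|σ α' - σ α| ^ E ≤ |p|` at `v` for at least `1 / m` of the automorphisms `σ` of `K`;
and `α' / α` is not a root of unity. -/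
def ClosePairs (f : ℤ[X]) (p E m : ℕ) : Prop :=
  ∃ (K : Type) (_ : Field K) (_ : NumberField K) (_ : IsGalois ℚ K) (v : FinitePlace K)
    (α α' : K), v (p : K) < 1 ∧ aeval α f = 0 ∧ aeval α' f = 0 ∧
    (∀ k : ℕ, 0 < k → α' ^ k ≠ α ^ k) ∧
    Nat.card Gal(K/ℚ) ≤ m * Nat.card {σ : Gal(K/ℚ) // v (σ α' - σ α) ^ E ≤ v (p : K)}

lemma M_neg (f : ℤ[X]) : M (-f) = M f := by
  unfold M
  have h : -f = C (-1) * f := by simp
  rw [h, Polynomial.map_mul, mahlerMeasure_mul, Polynomial.map_C, mahlerMeasure_const]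
  simp

lemma pairs_neg {f : ℤ[X]} {p E m : ℕ} (h : ClosePairs f p E m) : ClosePairs (-f) p E m := by
  obtain ⟨K, i1, i2, i3, v, α, α', h1, h2, h3, h4⟩ := h
  exact ⟨K, i1, i2, i3, v, α, α', h1, by rw [map_neg, h2, neg_zero], by rw [map_neg, h3, neg_zero],
    h4⟩

lemma pairs_of_class {f : ℤ[X]} (hf : f.Monic) {p E m : ℕ} (h : InertiaElement f p E m) :
    ClosePairs f p E m := by
  classical
  obtain ⟨K, i1, i2, i3, v, τ, h1, h2, h3, α, hα, hroot⟩ := h
  refine ⟨K, i1, i2, i3, v, α, τ α, h1, hα, ?_, hroot, ?_⟩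
  · have h4 := Polynomial.aeval_algHom_apply ((τ : K →ₐ[ℚ] K).restrictScalars ℤ) α f
    rw [hα, map_zero] at h4
    exact h4
  have hi : IsIntegral ℤ α := ⟨f, hf, by rw [← Polynomial.aeval_def]; exact hα⟩
  have horb : Nat.card (MulAction.orbit (ConjAct Gal(K/ℚ)) τ) *
      Nat.card (MulAction.stabilizer (ConjAct Gal(K/ℚ)) τ) = Nat.card Gal(K/ℚ) := by
    have h1 := MulAction.card_orbit_mul_card_stabilizer_eq_card_group (ConjAct Gal(K/ℚ)) τ
    rw [← Nat.card_eq_fintype_card, ← Nat.card_eq_fintype_card, ← Nat.card_eq_fintype_card] at h1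
    exact h1
  have horb2 : Nat.card (MulAction.orbit (ConjAct Gal(K/ℚ)) τ) ≤ m := by
    refine le_trans (le_of_eq ?_) h3
    apply Nat.card_congr
    refine Equiv.subtypeEquivRight fun g => ?_
    rw [ConjAct.mem_orbit_conjAct, isConj_comm]
  have hstab : Nat.card (MulAction.stabilizer (ConjAct Gal(K/ℚ)) τ) ≤
      Nat.card {σ : Gal(K/ℚ) // v (σ (τ α) - σ α) ^ E ≤ v (p : K)} := by
    have hmem : ∀ g : MulAction.stabilizer (ConjAct Gal(K/ℚ)) τ,
        v ((ConjAct.ofConjAct g.1 : Gal(K/ℚ)) (τ α) -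
          (ConjAct.ofConjAct g.1 : Gal(K/ℚ)) α) ^ E ≤ v (p : K) := by
      intro g
      have h1 := g.2
      rw [MulAction.mem_stabilizer_iff, ConjAct.smul_def, mul_inv_eq_iff_eq_mul] at h1
      have h5 : (ConjAct.ofConjAct g.1 : Gal(K/ℚ)) (τ α) =
          τ ((ConjAct.ofConjAct g.1 : Gal(K/ℚ)) α) := congrArg (fun s : Gal(K/ℚ) => s α) h1
      rw [h5]
      have h6 : IsIntegral ℤ ((ConjAct.ofConjAct g.1 : Gal(K/ℚ)) α) :=
        hi.map ((ConjAct.ofConjAct g.1 : Gal(K/ℚ)) : K →ₐ[ℚ] K)
      exact h2 ⟨_, h6⟩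
    refine Nat.card_le_card_of_injective (fun g => ⟨_, hmem g⟩) ?_
    intro g g' hgg
    have h1 := congrArg Subtype.val hgg
    apply Subtype.ext
    exact ConjAct.ofConjAct.injective h1
  calc Nat.card Gal(K/ℚ) = Nat.card (MulAction.orbit (ConjAct Gal(K/ℚ)) τ) *
      Nat.card (MulAction.stabilizer (ConjAct Gal(K/ℚ)) τ) := horb.symm
    _ ≤ m * _ := Nat.mul_le_mul horb2 hstab

/-- inverses of zeros of monic polynomials with constant term `± 1` -/
lemma inv_integral {K : Type} [Field K] [NumberField K] {f : ℤ[X]} (hf : f.Monic)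
    (h0 : |f.coeff 0| = 1) {α : K} (hα : aeval α f = 0) : α ≠ 0 ∧ IsIntegral ℤ α⁻¹ := by
  have hi : IsIntegral ℤ α := ⟨f, hf, by rw [← Polynomial.aeval_def]; exact hα⟩
  have h1 : aeval α f.divX * α + algebraMap ℤ K (f.coeff 0) = 0 := by
    have h2 := congrArg (aeval α) (Polynomial.divX_mul_X_add f)
    rw [map_add, map_mul, Polynomial.aeval_X, Polynomial.aeval_C, hα] at h2
    exact h2
  have h3 : (algebraMap ℤ K (f.coeff 0)) ^ 2 = 1 := by
    rw [← map_pow, ← sq_abs, h0, one_pow, map_one]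
  have h4 : α * (-(aeval α f.divX) * algebraMap ℤ K (f.coeff 0)) = 1 := by
    have : aeval α f.divX * α = - algebraMap ℤ K (f.coeff 0) := by linear_combination h1
    calc α * (-(aeval α f.divX) * algebraMap ℤ K (f.coeff 0))
        = -(aeval α f.divX * α) * algebraMap ℤ K (f.coeff 0) := by ring
      _ = (algebraMap ℤ K (f.coeff 0)) ^ 2 := by rw [this]; ring
      _ = 1 := h3
  refine ⟨left_ne_zero_of_mul_eq_one h4, ?_⟩
  rw [← eq_inv_of_mul_eq_one_right h4]
  exact ((Pool.Agent.H388SL.isIntegral_aevalZ hi _).neg).mul isIntegral_algebraMap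

/-- **Lehmer's problem for polynomials with an inertia element that has few conjugates.** -/
theorem result : ∃ c : ℝ, 0 < c ∧ ∀ f : ℤ[X], Irreducible f → 1 < M f → ∀ p E m : ℕ,
    p.Prime → (InertiaElement f p E m ∨ ClosePairs f p E m) →
    min 2 (Real.exp (c * f.natDegree / ((E : ℝ) * (m : ℝ) ^ 2 *
      (Real.log (2 * (E * m))) ^ 4))) ≤ M f ∧
    ((E : ℝ) * (m : ℝ) ^ 2 * (Real.log (2 * (E * m))) ^ 4 ≤ c * f.natDegree → M L < M f) := by
  obtain ⟨c, hc, hcore⟩ := Pool.Agent.K4H76.Leh.coreI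
  refine ⟨c / 2, by positivity, ?_⟩
  intro f hf hM p e m hp hm
  have hL : M L < (2 : ℝ) ^ ((1 : ℝ) / 4) := Pool.Agent.TH53.SL.lehmer_lt'
  have hf0 : f ≠ 0 := hf.ne_zero
  have hinj : Function.Injective (Int.castRingHom ℂ) := RingHom.injective_int _
  have hmap0 : f.map (Int.castRingHom ℂ) ≠ 0 := (Polynomial.map_ne_zero_iff hinj).mpr hf0
  have hlead := leadingCoeff_le_mahlerMeasure (f.map (Int.castRingHom ℂ))
  rw [Polynomial.leadingCoeff_map_of_injective hinj, eq_intCast, Complex.norm_intCast] at hlead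
  have hl0 : f.leadingCoeff ≠ 0 := leadingCoeff_ne_zero.mpr hf0
  have habs := Int.one_le_abs hl0
  have h24 : (2 : ℝ) ^ ((1 : ℝ) / 4) ≤ 2 := by
    calc (2 : ℝ) ^ ((1 : ℝ) / 4) ≤ (2 : ℝ) ^ (1 : ℝ) :=
          Real.rpow_le_rpow_of_exponent_le (by norm_num) (by norm_num)
      _ = 2 := Real.rpow_one 2
  rcases le_or_gt 2 (M f) with hM2 | hM2
  · exact ⟨(min_le_left _ _).trans hM2, fun _ => hL.trans_le (h24.trans hM2)⟩
  -- the leading coefficient and the constant term
  have h1 : |f.leadingCoeff| = 1 := by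
    rcases lt_or_eq_of_le habs with h | h
    · have h2 : (2:ℝ) ≤ |(f.leadingCoeff : ℝ)| := by
        have : (2:ℤ) ≤ |f.leadingCoeff| := h
        exact_mod_cast this
      exact absurd (h2.trans hlead) (not_le.mpr hM2)
    · exact h.symm
  have h0ne : f.coeff 0 ≠ 0 := by
    intro h
    have h2 : (X : ℤ[X]) ∣ f := X_dvd_iff.mpr h
    have h3 : Associated (X : ℤ[X]) f := prime_X.irreducible.associated_of_dvd hf h2
    obtain ⟨u, hu⟩ := h3
    have h4 : M f = 1 := by
      obtain ⟨r, hr, hr2⟩ := Polynomial.isUnit_iff.mp u.isUnit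
      have h5 : |r| = 1 := Int.isUnit_iff_abs_eq.mp hr
      unfold M
      rw [← hu, ← hr2, Polynomial.map_mul, mahlerMeasure_mul, Polynomial.map_X, Polynomial.map_C,
        mahlerMeasure_const, eq_intCast, Complex.norm_intCast]
      have h6 : (X : ℂ[X]).mahlerMeasure = 1 := by
        have h := mahlerMeasure_X_sub_C 0
        simpa using h
      rw [h6, one_mul]
      exact_mod_cast h5
    linarith
  have hc0 : |f.coeff 0| = 1 := by
    have h2 := norm_coeff_le_choose_mul_mahlerMeasure 0 (f.map (Int.castRingHom ℂ))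
    rw [Nat.choose_zero_right, Nat.cast_one, one_mul, Polynomial.coeff_map, eq_intCast,
      Complex.norm_intCast] at h2
    have h3 : |(f.coeff 0 : ℝ)| < 2 := lt_of_le_of_lt h2 hM2
    have h4 : |f.coeff 0| < 2 := by exact_mod_cast h3
    have h5 := Int.one_le_abs h0ne
    omega
  -- the main estimate for monic polynomials
  have key : ∀ g : ℤ[X], Irreducible g → g.Monic → |g.coeff 0| = 1 → 1 < M g →
      ClosePairs g p e m → 1 ≤ (e : ℝ) * (m : ℝ) ^ 2 ∧ 0 < Real.log (2 * ((e:ℝ) * m)) ∧
      c / 2 * g.natDegree / ((e : ℝ) * (m : ℝ) ^ 2 * (Real.log (2 * (e * m))) ^ 4) ≤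
        Real.log (M g) := by
    rintro g hg hgm hg0 hgM ⟨K, i1, i2, i3, v, α, α', hv1, hα, hα', hroot, hcard⟩
    have hm1 : 1 ≤ m := by
      rcases Nat.eq_zero_or_pos m with h | h
      · rw [h, zero_mul, IsGalois.card_aut_eq_finrank ℚ K] at hcard
        have : 0 < finrank ℚ K := finrank_pos
        omega
      · exact h
    have he1 : 1 ≤ e := by
      rcases Nat.eq_zero_or_pos e with h | h
      · have h2 : Nat.card {σ : Gal(K/ℚ) // v (σ α' - σ α) ^ e ≤ v (p : K)} = 0 := by
          rw [Nat.card_eq_zero]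
          left
          refine ⟨fun ⟨s, hs⟩ => ?_⟩
          rw [h, pow_zero] at hs
          exact absurd hs (not_le.mpr hv1)
        rw [h2, mul_zero, IsGalois.card_aut_eq_finrank ℚ K] at hcard
        have : 0 < finrank ℚ K := finrank_pos
        omega
      · exact h
    have hi : IsIntegral ℤ α := ⟨g, hgm, by rw [← Polynomial.aeval_def]; exact hα⟩
    have hi' : IsIntegral ℤ α' := ⟨g, hgm, by rw [← Polynomial.aeval_def]; exact hα'⟩
    obtain ⟨hα0, hαi⟩ := inv_integral hgm hg0 hα
    have hlam := Pool.Agent.K4H76.Leh.lam_eq hg hgm hα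
    have hlam' := Pool.Agent.K4H76.Leh.lam_eq hg hgm hα'
    have hdeg : 0 < g.natDegree := by
      rw [Nat.pos_iff_ne_zero]
      intro h
      have := hgm.natDegree_eq_zero.mp h
      exact hg.not_isUnit (this ▸ isUnit_one)
    have hdeg' : (0:ℝ) < g.natDegree := by exact_mod_cast hdeg
    have heq : Pool.Agent.H388SL.lam α' = Pool.Agent.H388SL.lam α := by
      have h2 : (g.natDegree : ℝ) * Pool.Agent.H388SL.lam α' =
        g.natDegree * Pool.Agent.H388SL.lam α := by rw [hlam, hlam']
      exact mul_left_cancel₀ hdeg'.ne' h2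
    have hN : (0:ℝ) < finrank ℚ K := by exact_mod_cast (finrank_pos : 0 < finrank ℚ K)
    have hlogM : 0 < Real.log (Pool.Agent.K4H76.Leh.M g) := Real.log_pos hgM
    have hpos : 0 < Pool.Agent.H388SL.lam α := by
      have h2 : 0 < (g.natDegree : ℝ) * Pool.Agent.H388SL.lam α := by
        rw [hlam]; positivity
      exact (pos_iff_pos_of_mul_pos h2).mp hdeg'
    set β : K := α' * α⁻¹ with hβ
    have hβi : IsIntegral ℤ β := hi'.mul hαi
    have hα'0 : α' ≠ 0 := (inv_integral hgm hg0 hα').1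
    have hβ0 : β ≠ 0 := mul_ne_zero hα'0 (inv_ne_zero hα0)
    have hβroot : ∀ k : ℕ, 0 < k → β ^ k ≠ 1 := by
      intro k hk h
      apply hroot k hk
      rw [hβ, mul_pow, inv_pow] at h
      field_simp at h
      exact h
    have hcard2 : Nat.card Gal(K/ℚ) ≤
        m * Nat.card {σ : Gal(K/ℚ) // v (σ β - 1) ^ e ≤ v (p : K)} := by
      refine hcard.trans (Nat.mul_le_mul_left m ?_)
      have hmem : ∀ σ : {σ : Gal(K/ℚ) // v (σ α' - σ α) ^ e ≤ v (p : K)},
          v (σ.1 β - 1) ^ e ≤ v (p : K) := by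
        intro σ
        have h1 : σ.1 β - 1 = (σ.1 α' - σ.1 α) * σ.1 α⁻¹ := by
          have h2 : σ.1 α ≠ 0 := (_root_.map_ne_zero σ.1).mpr hα0
          rw [hβ, map_mul, map_inv₀]
          field_simp
        have h2 : v (σ.1 α⁻¹) ≤ 1 :=
          Pool.Agent.K4H76.Leh.v_le_one v (hαi.map (σ.1 : K →ₐ[ℚ] K))
        have h3 : v (σ.1 β - 1) ≤ v (σ.1 α' - σ.1 α) := by
          rw [h1, map_mul]
          exact mul_le_of_le_one_right (apply_nonneg v _) h2
        exact (pow_le_pow_left₀ (apply_nonneg v _) h3 e).trans σ.2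
      refine Nat.card_le_card_of_injective (fun σ => ⟨σ.1, hmem σ⟩) ?_
      intro σ σ' hσ
      exact Subtype.ext (congrArg (fun s => s.1) hσ)
    have h2 := hcore K v p hp hv1 e m he1 β hβi hβ0 hβroot hcard2
    have h2' : Pool.Agent.H388SL.lam β ≤ 2 * Pool.Agent.H388SL.lam α := by
      have h6 := Pool.Agent.K4H76.Leh.lam_mul_le α' α⁻¹
      have h7 := Pool.Agent.K4H76.Leh.lam_inv_le hi hα0
      rw [← hβ] at h6
      linarith
    replace h2 := h2.trans h2'
    have he' : (1:ℝ) ≤ e := by exact_mod_cast he1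
    have hm' : (1:ℝ) ≤ m := by exact_mod_cast hm1
    have hem : (1:ℝ) ≤ (e:ℝ) * m := by nlinarith
    have hlog : 0 < Real.log (2 * ((e:ℝ) * m)) := Real.log_pos (by linarith)
    refine ⟨?_, hlog, ?_⟩
    · have h3 : 1 ≤ (m:ℝ) ^ 2 := one_le_pow₀ hm'
      nlinarith
    set Q : ℝ := (e : ℝ) * (m : ℝ) ^ 2 * (Real.log (2 * (e * m))) ^ 4 with hQ
    have hQ0 : 0 < Q := by positivity
    have h3 : (g.natDegree : ℝ) * (c * finrank ℚ K / Q) ≤
        g.natDegree * (2 * Pool.Agent.H388SL.lam α) := mul_le_mul_of_nonneg_left h2 hdeg'.le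
    have h4 : (g.natDegree : ℝ) * (2 * Pool.Agent.H388SL.lam α) =
        2 * (finrank ℚ K * Real.log (M g)) := by
      have h5 : (g.natDegree : ℝ) * Pool.Agent.H388SL.lam α = finrank ℚ K * Real.log (M g) := hlam
      rw [← h5]; ring
    rw [h4] at h3
    have h6 : (finrank ℚ K : ℝ) * (c / 2 * g.natDegree / Q) ≤
        finrank ℚ K * Real.log (M g) := by
      have e1 : (finrank ℚ K : ℝ) * (c / 2 * g.natDegree / Q) =
        ((g.natDegree : ℝ) * (c * finrank ℚ K / Q)) / 2 := by
        field_simp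
      rw [e1, div_le_iff₀ (by norm_num)]
      linarith
    exact le_of_mul_le_mul_left h6 hN
  have hmain : 1 ≤ (e : ℝ) * (m : ℝ) ^ 2 ∧ 0 < Real.log (2 * ((e:ℝ) * m)) ∧
      c / 2 * f.natDegree / ((e : ℝ) * (m : ℝ) ^ 2 * (Real.log (2 * (e * m))) ^ 4) ≤
        Real.log (M f) := by
    rcases (abs_eq (zero_le_one' ℤ)).mp h1 with h2 | h2
    · have h3 : ClosePairs f p e m := by
        rcases hm with h | h
        · exact pairs_of_class h2 h
        · exact h
      exact key f hf h2 hc0 hM h3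
    · have hmon : (-f).Monic := by rw [Monic, leadingCoeff_neg, h2]; rfl
      have h3 : ClosePairs (-f) p e m := by
        rcases hm with ⟨K, i1, i2, i3, v, F, g1, g2, g3, α, hα, hr⟩ | h
        · exact pairs_of_class hmon ⟨K, i1, i2, i3, v, F, g1, g2, g3, α, by
            rw [map_neg, hα, neg_zero], hr⟩
        · exact pairs_neg h
      have h4 := key (-f)
        ((Associated.irreducible_iff (Associated.neg_left (Associated.refl f))).mpr hf) hmon
        (by rw [coeff_neg, abs_neg]; exact hc0) (by rw [M_neg]; exact hM) h3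
      rw [natDegree_neg, M_neg] at h4
      exact h4
  obtain ⟨g1, g2, g3⟩ := hmain
  have hM0 : 0 < M f := by linarith
  have hmin : Real.exp (c / 2 * f.natDegree / ((e : ℝ) * (m : ℝ) ^ 2 *
      (Real.log (2 * (e * m))) ^ 4)) ≤ M f := (Real.le_log_iff_exp_le hM0).mp g3
  refine ⟨(min_le_right _ _).trans hmin, fun hQ => hL.trans_le (h24.trans (le_trans ?_ hmin))⟩
  have hQ0 : 0 < (e : ℝ) * (m : ℝ) ^ 2 * (Real.log (2 * (e * m))) ^ 4 := by
    have : 0 < (e : ℝ) * (m : ℝ) ^ 2 := by linarith
    positivity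
  have h2 : 1 ≤ c / 2 * f.natDegree / ((e : ℝ) * (m : ℝ) ^ 2 *
      (Real.log (2 * (e * m))) ^ 4) := by
    rw [le_div_iff₀ hQ0, one_mul]
    exact hQ
  calc (2:ℝ) ≤ Real.exp 1 := by
        have := Real.add_one_le_exp (1:ℝ)
        linarith
    _ ≤ _ := Real.exp_le_exp.mpr h2

end Pool.Agent.Results.MP_dc0c68_nt.InertiaClass
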