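import Mathlib
import Pool.Agent.K4H76.RP.Fin

/-!
# Lehmer's problem for the factors of random polynomials

Every integer polynomial of Mahler measure less than `2` which is small in the sense of Lehmer's
problem divides a polynomial with coefficients `-1`, `0`, `1`, so that Lehmer's problem asks for
divisors of such polynomials. The theorem says that almost no polynomial with bounded coefficients
has a divisor `g` with `1 < M(g) ≤ T`, for every `T < (1 + √17) / 4 = 1.2807…` (Lehmer's polynomial has
the measure `1.1762…`), for all nondegenerate distributions of the coefficients.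

Definitions (`Pool.Agent.K4H76.RP.Defs`, `.Prob`, `.Defs2`): `M f` is the Mahler measure of `f ∈ ℤ[X]`;
`poly a = ∑ j, a j X ^ j`; `prob H w E` is the probability of the event `E` for independent random
integers `a 0, …, a n` in `[-H, H]`, where `a j` takes the value `x` with probability `w j x`; `Par H w q`
says that for `0 < j < n` the number `a j` is even with probability at most `q` and odd with
probability at most `q`.

Proof. A factor `g` of degree `d` may be assumed monic and irreducible, and reciprocal by a theorem
of Smyth, `T < (1 + √17) / 4`.

* If `d ≤ n ^ (1 - o(1))`, then `g` divides `f` with probability at most `exp (- n ^ (1 - o(1)))`: blocks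
  of `d` coefficients whose distance is larger than `d (log n) ^ 4 ` are independent modulo `g`, by
  Dobrowolski's theorem and a norm estimate on the part of the conjugates outside the unit circle.
  There are at most `C 2 ^ d log d` possible `g`, because a class modulo `2` contains at most
  `C log d` of them (energy inequality).
* If `d` is larger, then `g` divides `f` and `f* = X ^ n f (1 / X)`, so `f - f*`; modulo `2` this
  polynomial only depends on the parities of `a j + a (n - j)`, and a polynomial of degree `n` over
  `𝔽₂` has only `2 ^ (o(d))` divisors of degree `d`. So the parities leave `2 ^ (o(d))` possible `g`, and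
  given the parities `g` divides `f` with probability at most `q ^ (d / 2 - 1)`, since the coefficients in
  the middle window of length `d` are determined by `g` and the other coefficients.
-/

set_option autoImplicit false

open Polynomial Finset

namespace Pool.Agent.Results.MP_dc0c68_nt.RandomFactors

open Pool.Agent.K4H76.RP

/-- **Lehmer's inequality holds for all factors of almost all polynomials.** Let
`T < (1 + √17) / 4`, `q < 1` and `ε > 0`. There are `δ > 0` and `n₀` such that for all `n ≥ n₀`, all
`H ≤ exp (n ^ δ)`, all `h ∈ ℤ[X]` of degree at most `n` and all integers `D ≠ 0`: if `a 0, …, a n` are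
independent random integers in `[-H, H]` and both parities of `a j`, `0 < j < n`, have probability at
most `q`, then the probability that `f = h + D ∑ j, a j X ^ j` has a factor `g` with `1 < M(g) ≤ T` is at
most `exp (- n ^ (1 - ε))`. -/
theorem result (T : ℝ) (hT : T < (1 + √17) / 4) (q : ℝ) (hq : q < 1) (ε : ℝ) (hε : 0 < ε) :
    ∃ δ : ℝ, 0 < δ ∧ ∃ n₀ : ℕ, ∀ n : ℕ, n₀ ≤ n → ∀ H : ℕ, Real.log H ≤ (n : ℝ) ^ δ →
      ∀ (h : ℤ[X]) (D : ℤ), h.natDegree ≤ n → D ≠ 0 →
      ∀ w : Fin (n + 1) → ℤ → ℝ, (∀ j x, 0 ≤ w j x) →
      (∀ j, ∑ x ∈ Icc (-(H : ℤ)) H, w j x = 1) → Par H w q →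
      prob H w (fun a => ∃ g : ℤ[X], g ∣ h + C D * poly a ∧ 1 < M g ∧ M g ≤ T) ≤
        Real.exp (-(n : ℝ) ^ (1 - ε)) :=
  final T hT q hq ε hε

end Pool.Agent.Results.MP_dc0c68_nt.RandomFactors
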